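import Pool.Agent.R699.TreeFT2

/-!
MP_66c699_al, Q1: for every group of finite type `G` of depth `D` the quotient of
`K = St_G(D-1)` by the closure of its commutator subgroup is a torsion group; in fact it has
finite exponent.
-/

namespace Pool.Agent.Results.MP_66c699_al.Torsion

open Pool.R699.TreeFT

variable {X : Type*}

/-- fixing a level means fixing all shorter words (if there is a letter) -/
theorem fix_le [Nonempty X] {g : treeAut X} {n : ℕ} (h : ∀ v : List X, v.length = n → act g v = v)
    (v : List X) (hv : v.length ≤ n) : act g v = v := by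
  obtain ⟨x⟩ := ‹Nonempty X›
  have h1 := h (v ++ List.replicate (n - v.length) x) (by simp; omega)
  have h2 := act_take g v (List.replicate (n - v.length) x)
  rw [h1] at h2
  rw [← h2]
  simp

theorem mem_St_iff [Nonempty X] {G : Subgroup (treeAut X)} {n : ℕ} {g : treeAut X} :
    g ∈ St G n ↔ g ∈ G ∧ restr n g = 1 := by
  constructor
  · rintro ⟨h1, h2⟩
    refine ⟨h1, ?_⟩
    rw [← map_one (restr n), restr_eq_iff]
    exact fun v hv => fix_le h2 v hv
  · rintro ⟨h1, h2⟩
    refine ⟨h1, fun v hv => ?_⟩
    rw [← map_one (restr n), restr_eq_iff] at h2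
    exact h2 v hv.le

theorem triv_of [DecidableEq X] {C : Type*} [CommGroup C] {K : Subgroup (treeAut X)}
    (hemb : ∀ x, ∀ k ∈ K, emb1 x k ∈ K) (n : ℕ) :
    ∀ χ : treeAut X → C, (∀ k ∈ K, (∀ v : List X, v.length ≤ n → act k v = v) → χ k = 1) →
      Triv K n χ := by
  induction n with
  | zero =>
    intro χ h k hk
    apply h k hk
    intro v hv
    have : v = [] := List.length_eq_zero_iff.1 (by omega)
    rw [this, act_nil]
  | succ n ih =>
    intro χ h x
    apply ih
    intro k hk hf
    apply h _ (hemb x k hk)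
    intro v hv
    cases v with
    | nil => exact act_nil _
    | cons y w =>
      rw [emb1, act_emb_cons]
      congr 1
      split_ifs
      · exact hf w (by simpa using hv)
      · exact act_one w

theorem finite_words [Finite X] (n : ℕ) : Finite {v : List X // v.length ≤ n} :=
  (List.finite_length_le X n).to_subtype

theorem setup [DecidableEq X] [Fintype X] [Nonempty X] {C : Type*} [CommGroup C] (D : ℕ)
    (hD : 1 ≤ D) (P : Subgroup (Equiv.Perm {v : List X // v.length ≤ D})) :
    Setup C (GP D P) (St (GP D P) (D - 1)) (Nat.card ((GP D P).map (restr (D - 1))))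
      (Nat.card (Equiv.Perm {v : List X // v.length ≤ D})) := by
  have fin1 : Finite {v : List X // v.length ≤ D - 1} := finite_words _
  have fin2 : Finite {v : List X // v.length ≤ D} := finite_words _
  have secG : ∀ g ∈ GP D P, ∀ x, sec g [x] ∈ GP D P := by
    intro g hg x v
    rw [sec_sec]
    exact hg _
  refine ⟨fun g hg => hg.1, ?_, ?_, secG, ?_, ?_⟩
  · intro g hg k hk
    rw [mem_St_iff] at hk ⊢
    refine ⟨(GP D P).mul_mem ((GP D P).mul_mem hg hk.1) ((GP D P).inv_mem hg), ?_⟩
    rw [map_mul, map_mul, map_inv, hk.2, mul_one, mul_inv_cancel]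
  · intro k hk
    have hfix : ∀ v : List X, v.length ≤ D → act (emb k) v = v := by
      intro v hv
      cases v with
      | nil => exact act_nil _
      | cons y w =>
        rw [act_emb_cons, fix_le (hk y).2 w (by simp at hv; omega)]
    refine ⟨?_, fun v hv => hfix v (by omega)⟩
    intro v
    cases v with
    | nil =>
      rw [sec_nil]
      have : restr D (emb k) = 1 := by
        rw [← map_one (restr D), restr_eq_iff]
        exact hfix
      rw [this]
      exact P.one_mem
    | cons y w =>
      have : sec (emb k) (y :: w) = sec (k y) w := by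
        rw [← sec_emb k y, sec_sec]; rfl
      rw [this]
      exact (hk y).1 w
  · intro g hg
    have h1 : restr D (g ^ Nat.card (Equiv.Perm {v : List X // v.length ≤ D})) = 1 := by
      rw [map_pow]
      exact pow_card_eq_one'
    generalize hgm : g ^ Nat.card (Equiv.Perm {v : List X // v.length ≤ D}) = gm at h1
    have hgG : gm ∈ GP D P := by rw [← hgm]; exact (GP D P).pow_mem hg _
    rw [← map_one (restr D), restr_eq_iff] at h1
    have h1' : ∀ v : List X, v.length ≤ D → act gm v = v := h1
    have hrt : ∀ x, rt gm x = x := fun x => rt_eq (h1' [x] (by simpa using hD))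
    refine ⟨fun x => sec gm [x], fun x => ⟨secG _ hgG x, fun v hv => ?_⟩, eq_emb hrt⟩
    have h2 := act_cons gm x v
    rw [h1' (x :: v) (by simp; omega), List.cons.injEq] at h2
    exact h2.2.symm
  · intro L hL χ hχ hinv
    exact ext_exists (restr (D - 1)) (fun g => mem_St_iff) hL hχ hinv

/-- the subgroup of `K` of the elements fixing all words of length at most `n` -/
def lev (K : Subgroup (treeAut X)) (n : ℕ) : Subgroup K :=
  ((restr n).comp K.subtype).ker

theorem mem_lev {K : Subgroup (treeAut X)} {n : ℕ} {k : K} :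
    k ∈ lev K n ↔ ∀ v : List X, v.length ≤ n → act k.1 v = v := by
  change restr n k.1 = 1 ↔ _
  rw [← map_one (restr n), restr_eq_iff]
  rfl

/-- Torsion theorem: for a finite alphabet `X`. -/
theorem torsion [DecidableEq X] [Fintype X] [Nonempty X] (D : ℕ) (hD : 1 ≤ D)
    (P : Subgroup (Equiv.Perm {v : List X // v.length ≤ D})) :
    ∃ N : ℕ, 0 < N ∧ ∀ g ∈ St (GP D P) (D - 1),
      g ^ N ∈ cl ((⁅St (GP D P) (D - 1), St (GP D P) (D - 1)⁆ : Subgroup (treeAut X)) :
        Set (treeAut X)) := by
  classical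
  have fin1 : Finite {v : List X // v.length ≤ D - 1} := finite_words _
  have fin2 : Finite {v : List X // v.length ≤ D} := finite_words _
  set G := GP D P with hG
  set K := St G (D - 1) with hK
  set m := Nat.card (G.map (restr (D - 1))) with hm
  set m' := Nat.card (Equiv.Perm {v : List X // v.length ≤ D}) with hm'
  have hmpos : 0 < m := Nat.card_pos
  have hmpos' : 0 < m' := Nat.card_pos
  refine ⟨m * m', Nat.mul_pos hmpos hmpos', ?_⟩
  intro g hg n
  let Q := K ⧸ lev K n
  haveI : (lev K n).Normal := by unfold lev; infer_instance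
  let C := Abelianization (K ⧸ lev K n)
  let φ : K →* C := (Abelianization.of).comp (QuotientGroup.mk' (lev K n))
  have S : Setup C G K m m' := setup D hD P
  let χ : treeAut X → C := fun a => if h : a ∈ K then φ ⟨a, h⟩ else 1
  have hχe : ∀ a (h : a ∈ K), χ a = φ ⟨a, h⟩ := fun a h => dif_pos h
  have hχ : HomOn K χ := by
    intro a ha b hb
    rw [hχe _ ha, hχe _ hb, hχe _ (K.mul_mem ha hb), ← map_mul]
    rfl
  have hinv : ∀ h ∈ K, ∀ k ∈ K, χ (h * k * h⁻¹) = χ k := by
    intro h hh k hk
    rw [hχ _ (K.mul_mem hh hk) _ (K.inv_mem hh), hχ _ hh _ hk, mul_comm (χ h), mul_assoc,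
      ← hχ _ hh _ (K.inv_mem hh), mul_inv_cancel, hχ.one, mul_one]
  have htr : Triv K n χ := by
    apply triv_of (fun x k hk => emb1_mem S x hk) n
    intro k hk hf
    rw [hχe _ hk]
    have h1 : QuotientGroup.mk' (lev K n) ⟨k, hk⟩ = 1 := by
      rw [QuotientGroup.mk'_apply, QuotientGroup.eq_one_iff, mem_lev]
      exact hf
    change Abelianization.of (QuotientGroup.mk' (lev K n) ⟨k, hk⟩) = 1
    rw [h1, map_one]
  have hξ : HomOn K (fun a => χ a ^ m) := by
    intro a ha b hb
    change χ (a * b) ^ m = χ a ^ m * χ b ^ m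
    rw [hχ a ha b hb, mul_pow]
  have hfin := main S n K le_rfl S.hKG χ hχ hinv htr (fun a => χ a ^ m) hξ (fun k _ => rfl) g hg
  -- `φ (g ^ (m * m')) = 1`
  have h1 : φ (⟨g, hg⟩ ^ (m * m')) = 1 := by
    rw [map_pow, ← hχe g hg, pow_mul]
    exact hfin
  have h2 : QuotientGroup.mk' (lev K n) (⟨g, hg⟩ ^ (m * m')) ∈ commutator (K ⧸ lev K n) := by
    rw [← Abelianization.ker_of]
    exact h1
  have h3 : commutator (K ⧸ lev K n) = (commutator K).map (QuotientGroup.mk' (lev K n)) := by
    rw [commutator_def, commutator_def, Subgroup.map_commutator,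
      Subgroup.map_top_of_surjective _ (QuotientGroup.mk'_surjective _)]
  rw [h3] at h2
  obtain ⟨c, hc, hc'⟩ := h2
  refine ⟨c.1, ?_, ?_⟩
  · have h4 : ((commutator K).map K.subtype) = ⁅K, K⁆ := by
      rw [commutator_def, Subgroup.map_commutator]
      congr 1 <;> · rw [← MonoidHom.range_eq_map, Subgroup.range_subtype]
    change c.1 ∈ ⁅K, K⁆
    rw [← h4]
    exact ⟨c, hc, rfl⟩
  · have h5 : c⁻¹ * ⟨g, hg⟩ ^ (m * m') ∈ lev K n := by
      rw [← QuotientGroup.eq]
      exact hc'
    rw [mem_lev] at h5
    intro v hv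
    have h6 := h5 v hv
    have h7 : act c.1 (act (c⁻¹ * ⟨g, hg⟩ ^ (m * m') : K).1 v) = act (g ^ (m * m')) v := by
      rw [← act_mul]
      congr 1
      change c.1 * (c.1⁻¹ * g ^ (m * m')) = g ^ (m * m')
      group
    rw [← h7, h6]

/-- For every `d ≥ 2`, every `D ≥ 1` and every pattern group `P` of depth `D`, a power `g ^ N`,
with `N > 0` independent of `g`, of every element `g` of `K = St_G(D-1)`, where `G = G_P`, lies in
the closure of the commutator subgroup of `K`. -/
theorem result (d : ℕ) (hd : 2 ≤ d) (D : ℕ) (hD : 1 ≤ D)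
    (P : Subgroup (Equiv.Perm {v : List (Fin d) // v.length ≤ D})) :
    ∃ N : ℕ, 0 < N ∧ ∀ g ∈ St (GP D P) (D - 1),
      g ^ N ∈ cl ((⁅St (GP D P) (D - 1), St (GP D P) (D - 1)⁆ : Subgroup (treeAut (Fin d))) :
        Set (treeAut (Fin d))) := by
  haveI : Nonempty (Fin d) := ⟨⟨0, by omega⟩⟩
  exact torsion D hD P

end Pool.Agent.Results.MP_66c699_al.Torsion
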